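import Mathlib
import Pool.Agent.Helper43y.Def
import Pool.Agent.Helper43y.Tra

/-!
# `ℓ`-Galois special points have no simple factor with an isolated pair of Frobenius eigenvalues

Let `x` be a point of `𝒜_g` over a number field, or over a finitely generated field of characteristic
zero, embedded in `ℂ`, and let `X = A_x` be the corresponding abelian variety. The question is
whether `X` has complex multiplication if `x` is `ℓ`-Galois special, that is, if no closed
irreducible subvariety `Z ∋ x` of positive dimension has the same group `G_{ℓ,Z} = G_{ℓ,x}`. We show
that `x` is not `ℓ`-Galois special if **one** simple factor `Y` of `X` over `ℂ` satisfies a condition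
on the products of two eigenvalues of Frobenius elements (`FrobTwo`), **whatever the other simple
factors of `X` are**: nothing is supposed about them, and the Mumford-Tate conjecture for `X` need not
be known.

**The class of simple factors.** Let `Y` be of Albert type I or II (`RealMax`; there is no condition on
the dimension), or of type IV and `Wide` (starting library: all embeddings `s` of a maximal subfield
`ℚ[a]` of the endomorphism algebra occur in the tangent space, and the dimension of the eigenspaces
`V_s` is at most three or some `s` and its complex conjugate have multiplicity at least two). Suppose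
that for every embedding `s` of a maximal subfield `ℚ[a]` there is an element `γ` of the Galois group (for
instance a Frobenius element at a place of good reduction, which may depend on `s`) which commutes with
the endomorphisms of `X`, and for which one of the following conditions on the products of two
eigenvalues `α 1, …, α n` on `V_s` holds.

* *Isolated pair* (`HasIsolatedPair`), for the types I and II: there are two indices `i₀`, `i₁` such that
  the function `h` with `h i₀ = 1`, `h i₁ = -1` and `h i = 0` for the other `i` is additive: if
  `α i * α j = α k * α l` then `h i + h j = h k + h l`.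
* *Coprime set* (`HasCoprimeSet`), for all types: there is a set of indices, different from the empty
  set and the whole set, of cardinality prime to `n`, whose characteristic function is additive.

For example, a point `x` whose abelian variety has a simple factor `Y` with `End(Y) = ℤ` of any dimension
`d` is not `ℓ`-Galois special if one Frobenius polynomial of `Y` (of degree `2 d`) has a Galois group
which contains a transposition of two roots `x`, `q / x` where `(x^2 / q)^k ≠ 1` for `k ≤ 4` (see
`isolated_of_swap` in `Pool/Agent/Helper43y/Tra.lean`).

**The Lie algebra `𝔫`** (`InN`) consists of the endomorphisms `t` of `H_1(X, ℚ)` which commute with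
the endomorphisms of `X`, are skew for the Riemann form, have trace zero with the endomorphisms of `X`
and vanish on the isotypic parts of `X` which do not belong to `Y`. The theorem says

1. some `t` in `𝔫` does not commute with the complex structure of `X`;
2. `𝔫` kills all Tate tensors of `X`; and so `ℚ_ℓ ⊗ 𝔫` is contained in the Lie algebra of `G_{ℓ,x}`;
3. if the connected monodromy group of a family of abelian varieties through `X` is contained in the
   connected group `N` with the Lie algebra `𝔫` (`IsFamily`), then the Tate tensors of `X` are the
   same as those of the family.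

**Consequences** (as in the starting library, `MP_09799c_ag.OneGoodFactor`). By Faltings `G_{ℓ,x}` is
reductive, and so it is determined by the Tate tensors. By Deligne it is contained in `G_x ⊗ ℚ_ℓ`, and
so `N` is a connected normal subgroup of the Mumford-Tate group `G_x` by (2). The orbit of a lifting
of `x` to the Siegel upper half space under `N(ℝ)⁺` is a factor of the Hermitian symmetric domain of
`G_x`, and by Moonen's theorem its image `Z` in `𝒜_g` is a closed irreducible algebraic (weakly special)
subvariety through `x`. It is of positive dimension by (1). Its connected monodromy group is contained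
in `N`. The point `x` gives a section of the fundamental group, and (3) applies. So
`G_{ℓ,Z} = G_{ℓ,x}` and `x` is not `ℓ`-Galois special.

**The proof.** By the additivity of `h` the Lie algebra of the monodromy group, restricted to `V_s`, is
graded by `h i - h j`, since it is normalized by `γ`. For isolated pairs its part of degree `-1`
generates elements of rank one (`Pool.Agent.Helper43y.rk1_of_pair`), without the classification of
irreducible subalgebras. With elements of rank one the method of the starting library applies.
-/

namespace Pool.Agent.Results.MP_09799c_ag.OneFactorIsolatedPair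

open Module Pool.Agent.Y90 Pool.Agent.R915 Pool.Agent.N183.U8 Pool.Agent.Helper43y TensorProduct
open Pool.Agent.Y224.TS.St (IsTateModule)
open Pool.Agent.H204R3.SP (IsTate Kills)

/-- **Points which are not `ℓ`-Galois special.** Let `X` be an abelian variety over a number field or
a finitely generated field, given (as a complex abelian variety) by `X : AV`, a polarization `E` and
the representation `ρ` of the Galois group `Γ` on the Tate module `ℚ_ℓ ⊗ H_1(X, ℚ)`, with the known
properties of the Tate module (`IsTateModule`; `χ` is the cyclotomic character, and `ℂ` is identified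
with an algebraic closure of `ℚ_ℓ`). Let `Y` be one simple factor of `X` over `ℂ` of Albert type I or
II, or `Wide`, with elements of the Galois group as in `FrobTwo`. Then there is an element `t` of `𝔫`
which is not an endomorphism of `X`; all elements of `𝔫` kill all Tate tensors `φ` of `X`; and for a
family with monodromy in `𝔫` the Tate tensors of the fibre `X` are the Tate tensors of the family. -/
theorem result (X : AV) (E : X.H → X.H → ℚ) (hE : Pool.Agent.Y90.St.IsPolarization X.per E)
    (ℓ : ℕ) [Fact ℓ.Prime] [Algebra ℚ_[ℓ] ℂ] [Algebra.IsAlgebraic ℚ_[ℓ] ℂ]
    {Γ : Type} [Group Γ] (ρ : Representation ℚ_[ℓ] Γ (ℚ_[ℓ] ⊗[ℚ] X.H)) (χ : Γ →* ℚ_[ℓ])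
    (hρ : IsTateModule X.per E ρ χ) (Y : AV) (hY : IsFactor Y X)
    (hYt : (∃ a, RealMax Y a) ∨ Wide Y) (hG : FrobTwo X ρ Y) :
    (∃ t, InN X E Y t ∧ ¬ IsHom X X t) ∧
    (∀ (m : ℕ) (φ : MultilinearMap ℚ_[ℓ] (fun _ : Fin m × Fin 2 => ℚ_[ℓ] ⊗[ℚ] X.H) ℚ_[ℓ]),
      IsTate ρ χ m φ → ∀ t, InN X E Y t → Kills (t.baseChange ℚ_[ℓ]) φ) ∧
    ∀ {Γ' : Type} [Group Γ'] (ρ' : Representation ℚ_[ℓ] Γ' (ℚ_[ℓ] ⊗[ℚ] X.H)) (χ' : Γ' →* ℚ_[ℓ])
      (s : Γ →* Γ') (P : Subgroup Γ'),
      IsFamily ρ χ {T | ∃ t, InN X E Y t ∧ T = t.baseChange ℚ_[ℓ]} ρ' χ' s P →
      ∀ (m : ℕ) (φ : MultilinearMap ℚ_[ℓ] (fun _ : Fin m × Fin 2 => ℚ_[ℓ] ⊗[ℚ] X.H) ℚ_[ℓ]),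
        IsTate ρ χ m φ ↔ IsTate ρ' χ' m φ := by
  have hX := goodFor2 hY (Or.inr ⟨hYt, hG⟩)
  refine ⟨exists_def2 hE hρ hY hX, fun m φ hφ t ht => kills_tate2 hE hρ hX ht hφ, ?_⟩
  intro Γ' _ ρ' χ' s P hF m φ
  refine ⟨fun hφ => hF.tate hφ ?_, fun hφ => ?_⟩
  · rintro _ ⟨t, ht, rfl⟩
    exact kills_tate2 hE hρ hX ht hφ
  · obtain ⟨Δ, hΔ, h⟩ := hφ
    refine ⟨Δ.comap s, ⟨by
      rw [Subgroup.index_comap]
      exact (Subgroup.instFiniteIndex_subgroupOf Δ s.range).index_ne_zero⟩, fun g hg v => ?_⟩
    have h1 := h (s g) hg v
    rw [hF.rep, hF.cyc] at h1
    exact h1

end Pool.Agent.Results.MP_09799c_ag.OneFactorIsolatedPair
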