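import Mathlib
import Pool.Agent.Results.MP_09799c_ag.OneFactorIsolatedPair
import Pool.Agent.H18W.All

/-!
# One Frobenius element with almost any characteristic polynomial: the point is not `ℓ`-Galois special

Let `x` be a point of `𝒜_g` over a number field, or over a finitely generated field of characteristic zero,
embedded in `ℂ`, and let `X = A_x` be the corresponding abelian variety. Let `Y` be a simple factor of `X`
(over `ℂ`) with `End Y = ℤ`, of dimension `d`; nothing is assumed on the other factors of `X`. The characteristic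
polynomial `P` of a Frobenius element on the Tate module of `Y` is a `q`-Weil polynomial of degree `2 d`,
`P = X ^ d R (X + q / X)`, where `R` is a monic polynomial of degree `d` with integral coefficients, all of whose roots
are real, of absolute value at most `2 √q` (`IsWeil`).

We show that for almost every `q`-Weil polynomial one such element is enough to see that `x` is not `ℓ`-Galois
special: there are constants `c > 0`, `C > 0`, which depend on `d` only, such that for every `q ≥ 1`

* there are at least `c q ^ (d (d + 1) / 4)` `q`-Weil polynomials of degree `2 d`;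
* there is a set `Bad` of at most `C q ^ (d (d + 1) / 4 - 1 / 2)` polynomials such that for all `ℓ`, all `X` and `Y` as
  above and all elements `γ` of the Galois group (of the field of definition of the endomorphisms of `X`) whose
  characteristic polynomial on the Tate module of `Y` is a `q`-Weil polynomial which is not in `Bad`, the three
  statements of `Moves` are true.

So a proportion `1 - O(q ^ (-1/2))` of the `q`-Weil polynomials has the property that one Frobenius element with
this characteristic polynomial suffices, for all `ℓ` and all `X`, whatever the other factors are.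

**The meaning of `Moves`** (as in the hand-in `MP_09799c_ag.OneFactorIsolatedPair` and in the starting library,
`MP_09799c_ag.OneGoodFactor`). The Lie algebra `𝔫` (`InN`) consists of the endomorphisms of `H_1(X, ℚ)` which commute
with the endomorphisms of `X`, are skew for the Riemann form, have trace zero with the endomorphisms of `X` and
vanish on the isotypic parts of `X` which do not belong to `Y`. Then some element of `𝔫` is not an endomorphism of
`X`, `𝔫` kills all Tate tensors of `X`, and if the connected monodromy group of a family of abelian varieties through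
`X` is contained in the connected group with the Lie algebra `𝔫`, then the Tate tensors of `X` are those of the family.
With the theorems of Faltings, Deligne and Moonen it follows that there is a closed irreducible `Z ∋ x` of positive
dimension with `G_{ℓ,Z} = G_{ℓ,x}`: the point `x` is not `ℓ`-Galois special.

**The proof.** Let `x_i = α_i + q / α_i` be the roots of `R` and `y_i = x_i / √q`. If two products of two eigenvalues
`α` coincide without an obvious reason, then the resultant of two quadratic polynomials, or one of the numbers `y_i`,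
`y_i ^ 2 - 4`, `y_i ^ 2 - y_j ^ 2` vanishes (`S_REL`). The product of all these expressions is a symmetric polynomial of the
`y_i`, which is not zero (`S_FNZ`), and so it is a polynomial, different from zero and independent of `q`, in the
normalized coefficients `a_j / √q ^ (d - j)` of `R` (`S_SYM`). By the lemma of Schwartz and Zippel it vanishes on at
most a proportion `O(q ^ (-1/2))` of the grid (`S_BAD`). The number of all Weil polynomials is bounded below with an
open set of polynomials with real roots (`S_PER`, `S_CNT`). For the other Weil polynomials every pair of eigenvalues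
`α_i`, `q / α_i` is isolated in the sense of `MP_09799c_ag.OneFactorIsolatedPair`.

The pieces of the proof in `Pool/Agent/H18W` were written by helper3, helper20, helper39, helper45, helper55,
helper58, helper59, helper69, helper72, helper75, helper78, helper91, helper94, helper98 and helper18.
-/

set_option autoImplicit false

noncomputable section

namespace Pool.Agent.Results.MP_09799c_ag.AlmostAllFrobenius

open Module Pool.Agent.Y90 Pool.Agent.R915 Pool.Agent.N183.U5 Pool.Agent.N183.U8 Pool.Agent.Helper43y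
  TensorProduct Polynomial
open Pool.Agent.Y224.TS.St (IsTateModule)
open Pool.Agent.H204R3.SP (IsTate Kills)
open Pool.Agent.H18W (IsWeil Good RootsOf wp)

/-- All endomorphisms of `Y` are multiplications with rational numbers (`End Y = ℤ`). -/
def EndIsZ (Y : AV) : Prop := ∀ f : Module.End ℚ Y.H, IsHom Y Y f → ∃ c : ℚ, f = c • 1

/-- The point of `X` is not `ℓ`-Galois special because it moves with the simple factor `Y`: some element of the
Lie algebra `𝔫` (`InN`) is not an endomorphism of `X`; `𝔫` kills all Tate tensors of `X`; for a family with monodromy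
in `𝔫` the Tate tensors of the fibre `X` are the Tate tensors of the family. -/
structure Moves (A : AV) (E : A.H → A.H → ℚ) (ℓ : ℕ) [Fact ℓ.Prime] {Γ : Type} [Group Γ]
    (ρ : Representation ℚ_[ℓ] Γ (ℚ_[ℓ] ⊗[ℚ] A.H)) (χ : Γ →* ℚ_[ℓ]) (Y : AV) : Prop where
  notHom : ∃ t, InN A E Y t ∧ ¬ IsHom A A t
  kills : ∀ (m : ℕ) (φ : MultilinearMap ℚ_[ℓ] (fun _ : Fin m × Fin 2 => ℚ_[ℓ] ⊗[ℚ] A.H) ℚ_[ℓ]),
    IsTate ρ χ m φ → ∀ t, InN A E Y t → Kills (t.baseChange ℚ_[ℓ]) φ
  family : ∀ {Γ' : Type} [Group Γ'] (ρ' : Representation ℚ_[ℓ] Γ' (ℚ_[ℓ] ⊗[ℚ] A.H)) (χ' : Γ' →* ℚ_[ℓ])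
    (s : Γ →* Γ') (P : Subgroup Γ'),
    IsFamily ρ χ {T | ∃ t, InN A E Y t ∧ T = t.baseChange ℚ_[ℓ]} ρ' χ' s P →
    ∀ (m : ℕ) (φ : MultilinearMap ℚ_[ℓ] (fun _ : Fin m × Fin 2 => ℚ_[ℓ] ⊗[ℚ] A.H) ℚ_[ℓ]),
      IsTate ρ χ m φ ↔ IsTate ρ' χ' m φ

section

variable {K : Type} [Field K] [CharZero K] [Algebra K ℂ] {Γ : Type} [Group Γ]

theorem realMax_one {Y : AV} (hs : IsSimple Y) (hE : EndIsZ Y) : RealMax Y 1 := by
  obtain ⟨y, hy⟩ := hs.1
  haveI : Nontrivial Y.H := ⟨⟨y, 0, hy⟩⟩
  refine ⟨⟨LinearMap.id, fun v => rfl⟩, fun z hz => ?_, fun b hb _ => ?_⟩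
  · rw [minpoly.one, map_sub, aeval_X, map_one, sub_eq_zero] at hz
    rw [hz, Complex.one_im]
  · obtain ⟨c, rfl⟩ := hE b hb
    exact Subalgebra.smul_mem _ (one_mem _) c

theorem frobTwo_of {A : AV} (ρ : Representation K Γ (K ⊗[ℚ] A.H)) {Y : AV} (hs : IsSimple Y) (hE : EndIsZ Y)
    (γ : Γ) (t : Module.End K (K ⊗[ℚ] Y.H)) (hact : ActsBy A ρ Y γ t) {g q : ℕ} (hg : 1 ≤ g) (hq : 1 ≤ q)
    (x : Fin g → ℝ) (hx : Good (fun i => x i / Real.sqrt q))
    (ht : (t.baseChange ℂ).charpoly = ∏ i, (X ^ 2 - C (x i : ℂ) * X + C (q : ℂ))) :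
    FrobTwo A ρ Y := by
  have hR := realMax_one hs hE
  refine ⟨1, ⟨hR.1, fun b hb hc => hR.2.2 b hb hc⟩, fun s hs' => ⟨γ, t, hact, Or.inr ⟨hR, ?_⟩⟩⟩
  have h1 : s = 1 := by
    obtain ⟨y, hy⟩ := hs.1
    haveI : Nontrivial Y.H := ⟨⟨y, 0, hy⟩⟩
    rw [minpoly.one, map_sub, aeval_X, map_one, sub_eq_zero] at hs'
    exact hs'
  have hV : VS K Y 1 s = ⊤ := by
    rw [h1, eq_top_iff]
    intro v _
    unfold VS
    rw [Module.End.mem_eigenspace_iff, one_smul, Module.End.one_eq_id, LinearMap.baseChange_id,
      LinearMap.baseChange_id, LinearMap.id_apply]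
  obtain ⟨n, w, α, i₀, i₁, hne, h2, h3⟩ := Pool.Agent.H18W.isolated g q hg hq x hx _ (t.baseChange ℂ) ht
  rw [hV]
  refine ⟨n, i₀, i₁, hne, w.map (Submodule.topEquiv (R := ℂ)).symm, α, fun i => ?_, h3 _ (fun i => rfl)⟩
  rw [Basis.map_apply]
  exact h2 i

end

/-- **One Frobenius element with almost any characteristic polynomial.** For every `g ≥ 1` there are `c, C > 0` such
that for every `q ≥ 1` the number of the `q`-Weil polynomials of degree `2 g` (`IsWeil`) is finite and at least
`c q ^ (g (g + 1) / 4)`, and there is a set `Bad` of at most `C q ^ (g (g + 1) / 4 - 1 / 2)` polynomials with the following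
property. Let `ℓ` be a prime number, `A` an abelian variety with a polarization `E` and the `ℓ`-adic representation
`ρ` of the Galois group `Γ` (`IsTateModule`), `Y` a simple factor of `A` with `End Y = ℤ`, and `γ` an element of `Γ` which
commutes with the endomorphisms of `A` and acts on the Tate module of `Y` with a characteristic polynomial `P` which
is a `q`-Weil polynomial of degree `2 g` and is not in `Bad`. Then `Moves A E ℓ ρ χ Y`: the point of `A` is not
`ℓ`-Galois special. -/
theorem result (g : ℕ) (hg : 1 ≤ g) : ∃ c C : ℝ, 0 < c ∧ 0 < C ∧ ∀ q : ℕ, 1 ≤ q →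
    {P : ℤ[X] | IsWeil g q P}.Finite ∧
    c * (q : ℝ) ^ ((g : ℝ) * (g + 1) / 4) ≤ ({P : ℤ[X] | IsWeil g q P}.ncard : ℝ) ∧
    ∃ Bad : Finset ℤ[X], (Bad.card : ℝ) ≤ C * (q : ℝ) ^ ((g : ℝ) * (g + 1) / 4 - 1 / 2) ∧
      ∀ (ℓ : ℕ) [Fact ℓ.Prime] [Algebra ℚ_[ℓ] ℂ] [Algebra.IsAlgebraic ℚ_[ℓ] ℂ] (A : AV)
        (E : A.H → A.H → ℚ) {Γ : Type} [Group Γ] (ρ : Representation ℚ_[ℓ] Γ (ℚ_[ℓ] ⊗[ℚ] A.H))
        (χ : Γ →* ℚ_[ℓ]) (Y : AV) (γ : Γ) (t : Module.End ℚ_[ℓ] (ℚ_[ℓ] ⊗[ℚ] Y.H)) (P : ℤ[X]),
        Pool.Agent.Y90.St.IsPolarization A.per E → IsTateModule A.per E ρ χ → IsFactor Y A → EndIsZ Y →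
        ActsBy A ρ Y γ t → IsWeil g q P → P ∉ Bad → t.charpoly = P.map (Int.castRingHom ℚ_[ℓ]) →
          Moves A E ℓ ρ χ Y := by
  obtain ⟨c, C', hc, hC, h⟩ := Pool.Agent.H18W.count g hg
  refine ⟨c, C', hc, hC, fun q hq => ?_⟩
  obtain ⟨hf, hN, Bad, hB, hgood⟩ := h q hq
  refine ⟨hf, hN, Bad, hB, ?_⟩
  intro ℓ _ _ _ A E Γ _ ρ χ Y γ t P hE hρ hY hZ hact hP hPB ht
  obtain ⟨a, ⟨x, hx, hr⟩, rfl⟩ := hP
  have hG := hgood a x hx hr hPB
  have hcp : (t.baseChange ℂ).charpoly = ∏ i, (X ^ 2 - C (x i : ℂ) * X + C (q : ℂ)) := by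
    have e : (algebraMap ℚ_[ℓ] ℂ).comp (Int.castRingHom ℚ_[ℓ]) =
        Complex.ofRealHom.comp (Int.castRingHom ℝ) := RingHom.ext_int _ _
    rw [LinearMap.charpoly_baseChange, ht, Polynomial.map_map, e, ← Polynomial.map_map,
      Pool.Agent.H18W.t_WPF g q a x hr, Polynomial.map_prod]
    refine Finset.prod_congr rfl fun i _ => ?_
    simp only [Polynomial.map_add, Polynomial.map_sub, Polynomial.map_mul, Polynomial.map_pow, map_X, map_C,
      Complex.ofRealHom_eq_coe, Complex.ofReal_natCast]
  have hF := frobTwo_of ρ hY.1 hZ γ t hact hg hq x hG hcp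
  obtain ⟨k1, k2, k3⟩ := Pool.Agent.Results.MP_09799c_ag.OneFactorIsolatedPair.result A E hE ℓ ρ χ hρ Y hY
    (Or.inl ⟨1, realMax_one hY.1 hZ⟩) hF
  exact ⟨k1, k2, k3⟩

end Pool.Agent.Results.MP_09799c_ag.AlmostAllFrobenius
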